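import Mathlib

set_option autoImplicit false

namespace Pool.Agent.LinForms

open Finset

/-- image of a product of sets under a linear form -/
def S {ι : Type} [Fintype ι] [DecidableEq ι] (c : ι → ℤ) (W : ι → Finset ℤ) : Finset ℤ :=
  (Fintype.piFinset W).image (fun a => ∑ j, c j * a j)

lemma mem_S {ι : Type} [Fintype ι] [DecidableEq ι] (c : ι → ℤ) (W : ι → Finset ℤ) (x : ℤ) :
    x ∈ S c W ↔ ∃ a : ι → ℤ, (∀ j, a j ∈ W j) ∧ ∑ j, c j * a j = x := by
  simp [S, Fintype.mem_piFinset]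

/-- combine two sets at two very different scales -/
def comb (N : ℤ) (V W : Finset ℤ) : Finset ℤ := Finset.image₂ (fun x y => x + N * y) V W

lemma mem_comb (N : ℤ) (V W : Finset ℤ) (z : ℤ) :
    z ∈ comb N V W ↔ ∃ x ∈ V, ∃ y ∈ W, x + N * y = z := by
  simp [comb, Finset.mem_image₂]

lemma S_comb {ι : Type} [Fintype ι] [DecidableEq ι] (c : ι → ℤ) (N : ℤ) (V W : ι → Finset ℤ) :
    S c (fun i => comb N (V i) (W i)) = comb N (S c V) (S c W) := by
  ext z
  simp only [mem_S, mem_comb]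
  constructor
  · rintro ⟨a, ha, rfl⟩
    choose x hx y hy h using ha
    refine ⟨_, ⟨x, hx, rfl⟩, _, ⟨y, hy, rfl⟩, ?_⟩
    rw [Finset.mul_sum, ← Finset.sum_add_distrib]
    refine Finset.sum_congr rfl fun j _ => ?_
    rw [← h j]; ring
  · rintro ⟨_, ⟨x, hx, rfl⟩, _, ⟨y, hy, rfl⟩, rfl⟩
    refine ⟨fun j => x j + N * y j, fun j => ⟨x j, hx j, y j, hy j, rfl⟩, ?_⟩
    rw [Finset.mul_sum, ← Finset.sum_add_distrib]
    refine Finset.sum_congr rfl fun j _ => ?_
    ring

lemma card_comb_le (N : ℤ) (V W : Finset ℤ) : (comb N V W).card ≤ V.card * W.card :=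
  Finset.card_image₂_le _ _ _

lemma exists_comb_card (V : Finset ℤ) :
    ∃ N : ℤ, ∀ W : Finset ℤ, (comb N V W).card = V.card * W.card := by
  obtain ⟨M, hM⟩ : ∃ M : ℤ, ∀ x ∈ V, |x| ≤ M := by
    refine ⟨∑ x ∈ V, |x|, fun x hx => ?_⟩
    exact Finset.single_le_sum (f := fun x : ℤ => |x|) (fun i _ => abs_nonneg i) hx
  refine ⟨2 * |M| + 1, fun W => ?_⟩
  unfold comb
  rw [Finset.card_image₂_iff]
  rintro ⟨x, y⟩ hxy ⟨x', y'⟩ hxy' h
  simp only [Set.mem_prod, Finset.mem_coe] at hxy hxy' h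
  have hx := abs_le.mp (hM x hxy.1)
  have hx' := abs_le.mp (hM x' hxy'.1)
  have hMM := le_abs_self M
  have h1 : x - x' = (2 * |M| + 1) * (y' - y) := by linarith
  have h2 : |x - x'| < 2 * |M| + 1 := by
    rw [abs_lt]; constructor <;> linarith
  have h3 : x - x' = 0 := Int.eq_zero_of_abs_lt_dvd ⟨_, h1⟩ h2
  have h4 : y' - y = 0 := by
    rw [h3] at h1
    rcases mul_eq_zero.mp h1.symm with h | h
    · have := abs_nonneg M; omega
    · exact h
  have : x = x' := by omega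
  have : y = y' := by omega
  simp [*]

end Pool.Agent.LinForms
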