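import Mathlib

set_option autoImplicit false

namespace Pool.Agent.LinForms

open Finset

/-- all sums `∑_{t<K} β t * P^t * x t` with digits `0 ≤ x t < P` -/
noncomputable def E (β : ℕ → ℤ) (P : ℕ) : ℕ → Finset ℤ
  | 0 => {0}
  | (t+1) => Finset.image₂ (fun e x => e + β t * (P:ℤ)^t * x) (E β P t) (Finset.Ico (0:ℤ) P)

lemma mem_E_succ (β : ℕ → ℤ) (P t : ℕ) (z : ℤ) :
    z ∈ E β P (t+1) ↔ ∃ e ∈ E β P t, ∃ x : ℤ, (0 ≤ x ∧ x < P) ∧ e + β t * (P:ℤ)^t * x = z := by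
  simp [E, Finset.mem_image₂]

lemma sum_mem_E (β : ℕ → ℤ) (P : ℕ) (x : ℕ → ℤ) (hx : ∀ t, 0 ≤ x t ∧ x t < P) (K : ℕ) :
    ∑ t ∈ Finset.range K, β t * (P:ℤ)^t * x t ∈ E β P K := by
  induction K with
  | zero => simp [E]
  | succ K ih =>
    rw [Finset.sum_range_succ, mem_E_succ]
    exact ⟨_, ih, x K, hx K, rfl⟩

lemma E_bound (β : ℕ → ℤ) (P : ℕ) (B : ℤ) (hB : ∀ t, |β t| ≤ B) (hP : 1 ≤ P) (t : ℕ) :
    ∀ y ∈ E β P t, |y| ≤ B * (P:ℤ)^t := by
  have hB0 : 0 ≤ B := (abs_nonneg _).trans (hB 0)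
  induction t with
  | zero => intro y hy; simp [E] at hy; simp [hy, hB0]
  | succ t ih =>
    intro y hy
    rw [mem_E_succ] at hy
    obtain ⟨e, he, x, ⟨hx0, hx1⟩, rfl⟩ := hy
    have h1 := ih e he
    have hPt : (0:ℤ) ≤ (P:ℤ)^t := by positivity
    have h2 : |β t * (P:ℤ)^t * x| ≤ B * (P:ℤ)^t * (P - 1) := by
      rw [abs_mul, abs_mul, abs_of_nonneg hPt, abs_of_nonneg hx0]
      have := hB t
      apply mul_le_mul
      · exact mul_le_mul_of_nonneg_right this hPt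
      · omega
      · exact hx0
      · positivity
    calc |e + β t * (P:ℤ)^t * x| ≤ |e| + |β t * (P:ℤ)^t * x| := abs_add_le _ _
      _ ≤ B * (P:ℤ)^t + B * (P:ℤ)^t * (P - 1) := add_le_add h1 h2
      _ = B * (P:ℤ)^(t+1) := by ring

lemma card_le_residues (F R Q : Finset ℤ) (a : ℤ)
    (h : ∀ y ∈ F, y % a ∈ R ∧ y / a ∈ Q) : F.card ≤ R.card * Q.card := by
  rw [← Finset.card_product]
  apply Finset.card_le_card_of_injOn (fun y => (y % a, y / a))
  · intro y hy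
    simpa using h y hy
  · intro y _ y' _ hyy'
    simp only [Prod.mk.injEq] at hyy'
    rw [← Int.emod_add_mul_ediv y a, ← Int.emod_add_mul_ediv y' a, hyy'.1, hyy'.2]

/-- number of residues -/
noncomputable def N (β : ℕ → ℤ) (P t : ℕ) : ℕ := ((E β P t).image (fun y => y % (|β t| * (P:ℤ)^t))).card

lemma emod_step (b Q e x : ℤ) : (e + b * Q * x) % (|b| * Q) = e % (|b| * Q) := by
  rcases abs_choice b with h | h
  · rw [h, Int.add_mul_emod_self_left]
  · rw [h]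
    have : e + b * Q * x = e + (-b * Q) * (-x) := by ring
    rw [this, Int.add_mul_emod_self_left]

lemma N_succ_le1 (β : ℕ → ℤ) (P : ℕ) (t : ℕ) (hβ : β t ≠ 0) (hβ' : β (t+1) ≠ 0) (p' : ℤ)
    (hp' : (P:ℤ) = |β t| * p') (hP : 1 ≤ P) :
    (N β P (t+1) : ℤ) ≤ N β P t * (|β (t+1)| * p') := by
  have hb : 0 < |β t| := abs_pos.mpr hβ
  have hb' : 0 < |β (t+1)| := abs_pos.mpr hβ'
  have hp'0 : 0 < p' := by
    by_contra hcon
    push Not at hcon
    have : |β t| * p' ≤ 0 := mul_nonpos_of_nonneg_of_nonpos hb.le hcon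
    omega
  have hPt : (0:ℤ) < (P:ℤ)^t := by positivity
  set q : ℤ := |β (t+1)| * p' with hq
  have hq0 : 0 < q := by positivity
  set a : ℤ := |β t| * (P:ℤ)^t with ha
  have ha0 : 0 < a := by positivity
  have hmod : |β (t+1)| * (P:ℤ)^(t+1) = a * q := by
    rw [hq, pow_succ, ha]; nth_rewrite 2 [hp']; ring
  have hkey : N β P (t+1) ≤ N β P t * (Finset.Ico (0:ℤ) q).card := by
    unfold N
    apply card_le_residues _ _ _ a
    intro z hz
    rw [Finset.mem_image] at hz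
    obtain ⟨y, hy, rfl⟩ := hz
    rw [mem_E_succ] at hy
    obtain ⟨e, he, x, hx, rfl⟩ := hy
    rw [hmod]
    constructor
    · rw [Int.emod_emod_of_dvd _ (dvd_mul_right a q), ha, emod_step]
      exact Finset.mem_image_of_mem _ he
    · rw [Finset.mem_Ico]
      constructor
      · apply Int.ediv_nonneg _ ha0.le
        apply Int.emod_nonneg
        positivity
      · apply Int.ediv_lt_of_lt_mul ha0
        rw [mul_comm q a]
        apply Int.emod_lt_of_pos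
        positivity
  rw [Int.card_Ico] at hkey
  have : ((q - 0).toNat : ℤ) = q := by simp; omega
  calc (N β P (t+1) : ℤ) ≤ ((N β P t * (q - 0).toNat : ℕ) : ℤ) := by exact_mod_cast hkey
    _ = N β P t * q := by push_cast; rw [this]

/-- general quotient bound -/
lemma ediv_mem (B a e : ℤ) (ha : 0 < a) (he : |e| ≤ B * a) : -B ≤ e / a ∧ e / a ≤ B := by
  rw [abs_le] at he
  constructor
  · apply Int.le_ediv_of_mul_le ha; linarith [he.1]
  · have : e / a ≤ (B * a) / a := Int.ediv_le_ediv ha he.2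
    rwa [Int.mul_ediv_cancel _ ha.ne'] at this

lemma card_E_succ_le (β : ℕ → ℤ) (P : ℕ) (B : ℤ) (hB : ∀ t, |β t| ≤ B) (hP : 1 ≤ P) (t : ℕ)
    (hβ : β t ≠ 0) :
    ((E β P (t+1)).card : ℤ) ≤ N β P t * (P + 2 * B) := by
  have hb : 0 < |β t| := abs_pos.mpr hβ
  have hB0 : 0 ≤ B := (abs_nonneg _).trans (hB 0)
  have hPt : (0:ℤ) < (P:ℤ)^t := by positivity
  set a : ℤ := |β t| * (P:ℤ)^t with ha
  have ha0 : 0 < a := by positivity
  have hquot : ∀ e ∈ E β P t, -B ≤ e / a ∧ e / a ≤ B := by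
    intro e he
    apply ediv_mem B a e ha0
    have h1 := E_bound β P B hB hP t e he
    have h2 : (P:ℤ)^t ≤ a := by
      rw [ha]; nlinarith
    calc |e| ≤ B * (P:ℤ)^t := h1
      _ ≤ B * a := mul_le_mul_of_nonneg_left h2 hB0
  rcases lt_or_gt_of_ne hβ with hneg | hpos
  · have hkey : (E β P (t+1)).card ≤ N β P t * (Finset.Icc (-B - (P - 1)) B).card := by
      unfold N
      apply card_le_residues _ _ _ a
      intro y hy
      rw [mem_E_succ] at hy
      obtain ⟨e, he, x, hx, rfl⟩ := hy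
      constructor
      · rw [ha, emod_step]
        exact Finset.mem_image_of_mem _ he
      · have h1 : e + β t * (P:ℤ)^t * x = e + a * (-x) := by
          rw [ha, abs_of_neg hneg]; ring
        rw [h1, Int.add_mul_ediv_left _ _ ha0.ne', Finset.mem_Icc]
        have := hquot e he
        constructor <;> linarith [hx.1, hx.2]
    rw [Int.card_Icc] at hkey
    have h3 : ((B + 1 - (-B - ((P:ℤ) - 1))).toNat : ℤ) = P + 2 * B := by
      rw [Int.toNat_of_nonneg] <;> omega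
    calc ((E β P (t+1)).card : ℤ) ≤ ((N β P t * (B + 1 - (-B - ((P:ℤ) - 1))).toNat : ℕ) : ℤ) := by
          exact_mod_cast hkey
      _ = _ := by push_cast [h3]; rfl
  · have hkey : (E β P (t+1)).card ≤ N β P t * (Finset.Icc (-B) (B + (P - 1))).card := by
      unfold N
      apply card_le_residues _ _ _ a
      intro y hy
      rw [mem_E_succ] at hy
      obtain ⟨e, he, x, hx, rfl⟩ := hy
      constructor
      · rw [ha, emod_step]
        exact Finset.mem_image_of_mem _ he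
      · have h1 : e + β t * (P:ℤ)^t * x = e + a * x := by
          rw [ha, abs_of_pos hpos]
        rw [h1, Int.add_mul_ediv_left _ _ ha0.ne', Finset.mem_Icc]
        have := hquot e he
        constructor <;> linarith [hx.1, hx.2]
    rw [Int.card_Icc] at hkey
    have h3 : ((B + (P - 1) + 1 - (-B)).toNat : ℤ) = P + 2 * B := by
      rw [Int.toNat_of_nonneg] <;> omega
    calc ((E β P (t+1)).card : ℤ) ≤ ((N β P t * (B + (P - 1) + 1 - (-B)).toNat : ℕ) : ℤ) := by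
          exact_mod_cast hkey
      _ = _ := by push_cast [h3]; rfl

/-- density of the residues -/
noncomputable def nu (β : ℕ → ℤ) (P t : ℕ) : ℝ := (N β P t : ℝ) / ((|β t| : ℤ) * (P:ℝ)^t)

lemma nu_nonneg (β : ℕ → ℤ) (P t : ℕ) : 0 ≤ nu β P t := by
  unfold nu
  have : (0:ℝ) ≤ ((|β t| : ℤ) : ℝ) := by exact_mod_cast abs_nonneg (β t)
  positivity

lemma nu_succ_le (β : ℕ → ℤ) (P : ℕ) (t : ℕ) (hβ : ∀ t, β t ≠ 0)
    (hdvd : |β t| ∣ (P:ℤ)) (hP : 1 ≤ P) :
    nu β P (t+1) ≤ nu β P t := by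
  obtain ⟨p', hp'⟩ := hdvd
  have h := N_succ_le1 β P t (hβ t) (hβ (t+1)) p' hp' hP
  have hb : (0:ℝ) < ((|β t| : ℤ) : ℝ) := by exact_mod_cast abs_pos.mpr (hβ t)
  have hb' : (0:ℝ) < ((|β (t+1)| : ℤ) : ℝ) := by exact_mod_cast abs_pos.mpr (hβ (t+1))
  have hPR : (0:ℝ) < (P:ℝ) := by exact_mod_cast hP
  have hR : (N β P (t+1) : ℝ) ≤ N β P t * (((|β (t+1)| : ℤ) : ℝ) * (p':ℝ)) := by exact_mod_cast h
  have hpR : (P:ℝ) = ((|β t| : ℤ) : ℝ) * (p':ℝ) := by exact_mod_cast hp'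
  unfold nu
  rw [div_le_div_iff₀ (by positivity) (by positivity)]
  calc (N β P (t+1) : ℝ) * (((|β t| : ℤ) : ℝ) * (P:ℝ)^t)
      ≤ (N β P t * (((|β (t+1)| : ℤ) : ℝ) * (p':ℝ))) * (((|β t| : ℤ) : ℝ) * (P:ℝ)^t) := by
        apply mul_le_mul_of_nonneg_right hR; positivity
    _ = N β P t * (((|β (t+1)| : ℤ) : ℝ) * (P:ℝ)^(t+1)) := by
        rw [pow_succ]; nth_rewrite 3 [hpR]; ring

lemma nu_succ_le' (β : ℕ → ℤ) (P : ℕ) (B : ℕ) (hB : ∀ t, |β t| ≤ B) (t : ℕ) (hβ : ∀ t, β t ≠ 0)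
    (hP : 4 * B ^ 2 ≤ P) (hP1 : 1 ≤ P) (hasc : |β t| < |β (t+1)|) :
    nu β P (t+1) ≤ (1 - 1 / (2 * B)) * nu β P t := by
  have h0 : N β P (t+1) ≤ (E β P (t+1)).card := Finset.card_image_le
  have h1 := card_E_succ_le β P B hB hP1 t (hβ t)
  have h2 : (N β P (t+1) : ℤ) ≤ N β P t * (P + 2 * B) := le_trans (by exact_mod_cast h0) h1
  have hb : (0:ℝ) < ((|β t| : ℤ) : ℝ) := by exact_mod_cast abs_pos.mpr (hβ t)
  have hb' : (0:ℝ) < ((|β (t+1)| : ℤ) : ℝ) := by exact_mod_cast abs_pos.mpr (hβ (t+1))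
  have hPR : (0:ℝ) < (P:ℝ) := by exact_mod_cast hP1
  have hBpos : (0:ℝ) < (B:ℝ) := by
    have : (0:ℤ) < B := lt_of_lt_of_le (abs_pos.mpr (hβ 0)) (hB 0)
    exact_mod_cast this
  have hR : (N β P (t+1) : ℝ) ≤ N β P t * ((P:ℝ) + 2 * B) := by exact_mod_cast h2
  have hascR : ((|β t| : ℤ) : ℝ) + 1 ≤ ((|β (t+1)| : ℤ) : ℝ) := by exact_mod_cast hasc
  have hBR : ((|β (t+1)| : ℤ) : ℝ) ≤ (B:ℝ) := by exact_mod_cast hB (t+1)
  have hPB : 4 * (B:ℝ)^2 ≤ P := by exact_mod_cast hP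
  unfold nu
  rw [← mul_div_assoc, div_le_div_iff₀ (by positivity) (by positivity)]
  -- goal: N' * (b * P^t) ≤ θ * N * (b' * P^(t+1))
  set b : ℝ := ((|β t| : ℤ) : ℝ) with hbdef
  set b' : ℝ := ((|β (t+1)| : ℤ) : ℝ) with hb'def
  have hkey : ((P:ℝ) + 2 * B) * b ≤ (1 - 1 / (2 * B)) * (b' * P) := by
    have e1 : b * B ≤ (B - 1) * b' := by nlinarith
    have e2 : (P + 2 * B : ℝ) * (2 * B) ≤ (2 * B + 1) * P := by nlinarith
    -- multiply
    have e3 : ((P:ℝ) + 2 * B) * (2 * B) * (b * B) ≤ (2 * B + 1) * P * ((B - 1) * b') := by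
      apply mul_le_mul e2 e1 (by positivity) (by positivity)
    have e4 : ((P:ℝ) + 2 * B) * b * (2 * B * B) ≤ ((1 - 1 / (2 * B)) * (b' * P)) * (2 * B * B) := by
      have : ((1 - 1 / (2 * (B:ℝ))) * (b' * P)) * (2 * B * B) = (2 * B - 1) * B * b' * P := by
        field_simp
      rw [this]
      have hbP : 0 ≤ b' * P := by positivity
      nlinarith
    exact le_of_mul_le_mul_right e4 (by positivity)
  calc (N β P (t+1) : ℝ) * (b * (P:ℝ)^t)
      ≤ (N β P t * ((P:ℝ) + 2 * B)) * (b * (P:ℝ)^t) := by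
        apply mul_le_mul_of_nonneg_right hR; positivity
    _ = (N β P t * (P:ℝ)^t) * (((P:ℝ) + 2 * B) * b) := by ring
    _ ≤ (N β P t * (P:ℝ)^t) * ((1 - 1 / (2 * B)) * (b' * P)) := by
        apply mul_le_mul_of_nonneg_left hkey; positivity
    _ = (1 - 1 / (2 * B)) * N β P t * (b' * (P:ℝ)^(t+1)) := by ring

lemma nu_anti (β : ℕ → ℤ) (P : ℕ) (hβ : ∀ t, β t ≠ 0)
    (hdvd : ∀ t, |β t| ∣ (P:ℤ)) (hP : 1 ≤ P) : Antitone (nu β P) :=
  antitone_nat_of_succ_le fun t => nu_succ_le β P t hβ (hdvd t) hP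

lemma exists_asc (β : ℕ → ℤ) (m : ℕ) (hper : ∀ t, β (t + m) = β t)
    (hnc : ¬ ∀ t < m, |β t| = |β 0|) (k : ℕ) :
    ∃ s, m * k ≤ s ∧ s < m * k + m ∧ |β s| < |β (s+1)| := by
  by_contra hcon
  push Not at hcon
  apply hnc
  have hper' : ∀ k t, β (m * k + t) = β t := by
    intro k
    induction k with
    | zero => intro t; simp
    | succ k ih =>
      intro t
      have : m * (k+1) + t = (m * k + t) + m := by ring
      rw [this, hper, ih]
  have hdec : ∀ i, i ≤ m → |β (m * k + i)| ≤ |β (m * k)| := by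
    intro i
    induction i with
    | zero => intro _; simp
    | succ i ih =>
      intro hi
      have h1 := hcon (m * k + i) (by omega) (by omega)
      exact h1.trans (ih (by omega))
  have hdec2 : ∀ j, j ≤ m → |β (m * k + m)| ≤ |β (m * k + (m - j))| := by
    intro j
    induction j with
    | zero => intro _; simp
    | succ j ih =>
      intro hj
      have h1 := hcon (m * k + (m - (j+1))) (by omega) (by omega)
      have h2 : m * k + (m - (j+1)) + 1 = m * k + (m - j) := by omega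
      rw [h2] at h1
      exact (ih (by omega)).trans h1
  intro t ht
  have h1 := hdec t ht.le
  have h2 := hdec2 (m - t) (by omega)
  have h3 : m - (m - t) = t := by omega
  rw [h3] at h2
  have h4 : β (m * k) = β 0 := by simpa using hper' k 0
  rw [hper] at h2
  rw [hper', h4] at h1
  rw [hper' k t, h4] at h2
  exact le_antisymm h1 h2

lemma nu_mul (β : ℕ → ℤ) (P : ℕ) (B : ℕ) (hB : ∀ t, |β t| ≤ B) (hβ : ∀ t, β t ≠ 0)
    (hdvd : ∀ t, |β t| ∣ (P:ℤ)) (hP : 4 * B ^ 2 ≤ P) (hP1 : 1 ≤ P) (m : ℕ)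
    (hper : ∀ t, β (t + m) = β t) (hnc : ¬ ∀ t < m, |β t| = |β 0|) (k : ℕ) :
    nu β P (m * k) ≤ (1 - 1 / (2 * (B:ℝ))) ^ k := by
  have hBpos : 1 ≤ B := by
    have : (0:ℤ) < B := lt_of_lt_of_le (abs_pos.mpr (hβ 0)) (hB 0)
    exact_mod_cast this
  have hBR : (1:ℝ) ≤ B := by exact_mod_cast hBpos
  have hθ : (0:ℝ) ≤ 1 - 1 / (2 * (B:ℝ)) := by
    rw [sub_nonneg, div_le_one (by positivity)]; linarith
  induction k with
  | zero =>
    simp only [mul_zero, pow_zero]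
    unfold nu N
    have hb : (1:ℝ) ≤ ((|β 0| : ℤ) : ℝ) := by
      have : (0:ℤ) < |β 0| := abs_pos.mpr (hβ 0)
      exact_mod_cast this
    rw [div_le_one (by positivity)]
    have : ((E β P 0).image (fun y => y % (|β 0| * (P:ℤ)^0))).card ≤ 1 := by
      refine Finset.card_image_le.trans ?_
      simp [E]
    have h2 : (((E β P 0).image (fun y => y % (|β 0| * (P:ℤ)^0))).card : ℝ) ≤ 1 := by
      exact_mod_cast this
    simpa using h2.trans hb
  | succ k ih =>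
    obtain ⟨s, hs1, hs2, hs3⟩ := exists_asc β m hper hnc k
    have hanti := nu_anti β P hβ hdvd hP1
    have h1 : nu β P (m * (k+1)) ≤ nu β P (s+1) := by
      apply hanti; rw [mul_add, mul_one]; omega
    have h2 := nu_succ_le' β P B hB s hβ hP hP1 hs3
    have h3 : nu β P s ≤ nu β P (m * k) := hanti hs1
    calc nu β P (m * (k+1)) ≤ nu β P (s+1) := h1
      _ ≤ (1 - 1 / (2 * B)) * nu β P s := h2
      _ ≤ (1 - 1 / (2 * B)) * nu β P (m * k) := mul_le_mul_of_nonneg_left h3 hθ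
      _ ≤ (1 - 1 / (2 * B)) * (1 - 1 / (2 * (B:ℝ))) ^ k := mul_le_mul_of_nonneg_left ih hθ
      _ = _ := by rw [pow_succ]; ring

/-- the main density estimate -/
theorem card_E_le (β : ℕ → ℤ) (P : ℕ) (B : ℕ) (hB : ∀ t, |β t| ≤ B) (hβ : ∀ t, β t ≠ 0)
    (hdvd : ∀ t, |β t| ∣ (P:ℤ)) (hP : 4 * B ^ 2 ≤ P) (hP1 : 1 ≤ P) (m : ℕ)
    (hper : ∀ t, β (t + m) = β t) (hnc : ¬ ∀ t < m, |β t| = |β 0|) (k : ℕ) :
    ((E β P (m * k)).card : ℝ) ≤
      ((2 * B + 1) * B) * (1 - 1 / (2 * (B:ℝ))) ^ k * (P:ℝ) ^ (m * k) := by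
  have hBpos : 1 ≤ B := by
    have : (0:ℤ) < B := lt_of_lt_of_le (abs_pos.mpr (hβ 0)) (hB 0)
    exact_mod_cast this
  have hBR : (1:ℝ) ≤ B := by exact_mod_cast hBpos
  have hb : 0 < |β (m * k)| := abs_pos.mpr (hβ _)
  have hbR : (0:ℝ) < ((|β (m * k)| : ℤ) : ℝ) := by exact_mod_cast hb
  have hPt : (0:ℤ) < (P:ℤ)^(m * k) := by positivity
  have hPR : (0:ℝ) < (P:ℝ)^(m*k) := by positivity
  set a : ℤ := |β (m * k)| * (P:ℤ)^(m * k) with ha
  have ha0 : 0 < a := by positivity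
  have h1 : (E β P (m*k)).card ≤ N β P (m*k) * (Finset.Icc (-(B:ℤ)) B).card := by
    unfold N
    apply card_le_residues _ _ _ a
    intro y hy
    refine ⟨Finset.mem_image_of_mem _ hy, ?_⟩
    rw [Finset.mem_Icc]
    apply ediv_mem (B:ℤ) a y ha0
    have h1 := E_bound β P B hB hP1 _ y hy
    have h2 : (P:ℤ)^(m*k) ≤ a := by rw [ha]; nlinarith
    exact h1.trans (mul_le_mul_of_nonneg_left h2 (by positivity))
  rw [Int.card_Icc] at h1
  have h3 : ((B:ℤ) + 1 - (-(B:ℤ))).toNat = 2 * B + 1 := by omega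
  rw [h3] at h1
  have h4 := nu_mul β P B hB hβ hdvd hP hP1 m hper hnc k
  have h5 : (N β P (m*k) : ℝ) ≤ (1 - 1 / (2 * (B:ℝ))) ^ k * (((|β (m * k)| : ℤ) : ℝ) * (P:ℝ)^(m*k)) := by
    unfold nu at h4
    rwa [div_le_iff₀ (by positivity)] at h4
  have hbB : ((|β (m * k)| : ℤ) : ℝ) ≤ B := by exact_mod_cast hB (m*k)
  have hθ : (0:ℝ) ≤ 1 - 1 / (2 * (B:ℝ)) := by
    rw [sub_nonneg, div_le_one (by positivity)]; linarith
  have h6 : ((E β P (m*k)).card : ℝ) ≤ N β P (m*k) * (2 * B + 1) := by exact_mod_cast h1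
  calc ((E β P (m*k)).card : ℝ) ≤ N β P (m*k) * (2 * B + 1) := h6
    _ ≤ ((1 - 1 / (2 * (B:ℝ))) ^ k * (((|β (m * k)| : ℤ) : ℝ) * (P:ℝ)^(m*k))) * (2 * B + 1) := by
      apply mul_le_mul_of_nonneg_right h5; positivity
    _ ≤ ((1 - 1 / (2 * (B:ℝ))) ^ k * (B * (P:ℝ)^(m*k))) * (2 * B + 1) := by
      apply mul_le_mul_of_nonneg_right _ (by positivity)
      apply mul_le_mul_of_nonneg_left _ (by positivity)
      exact mul_le_mul_of_nonneg_right hbB (by positivity)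
    _ = _ := by ring

end Pool.Agent.LinForms
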