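import Mathlib
import Pool.Agent.LinForms.Basic
import Pool.Agent.LinForms.Digits

set_option autoImplicit false

namespace Pool.Agent.LinForms

open Finset

/-- digit family: numbers with base-`P` digits only at the positions `t < K` labelled `i` -/
noncomputable def Dg (m : ℕ) (ℓ : ℕ → Fin m) (P K : ℕ) (i : Fin m) : Finset ℤ :=
  (Finset.univ : Finset (Fin K → Fin P)).image
    (fun x => ∑ t : Fin K, if ℓ t = i then (P:ℤ)^(t:ℕ) * ((x t : ℕ) : ℤ) else 0)

lemma mem_Dg (m : ℕ) (ℓ : ℕ → Fin m) (P K : ℕ) (i : Fin m) (z : ℤ) (hz : z ∈ Dg m ℓ P K i) :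
    ∃ x : ℕ → ℤ, (0 < P → ∀ t, 0 ≤ x t ∧ x t < P) ∧
      z = ∑ t ∈ Finset.range K, if ℓ t = i then (P:ℤ)^t * x t else 0 := by
  unfold Dg at hz
  rw [Finset.mem_image] at hz
  obtain ⟨x, _, rfl⟩ := hz
  refine ⟨fun t => if h : t < K then ((x ⟨t, h⟩ : ℕ) : ℤ) else 0, ?_, ?_⟩
  · intro hP t
    by_cases h : t < K
    · simp only [h, dite_true]
      have := (x ⟨t, h⟩).2
      omega
    · simp only [h, dite_false]; omega
  · rw [Finset.sum_range]
    refine Finset.sum_congr rfl fun t _ => ?_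
    simp [t.2]

lemma Dg_nonempty (m : ℕ) (ℓ : ℕ → Fin m) (P K : ℕ) (hP : 0 < P) (i : Fin m) :
    (Dg m ℓ P K i).Nonempty := by
  unfold Dg
  apply Finset.Nonempty.image
  exact ⟨fun _ => ⟨0, hP⟩, Finset.mem_univ _⟩

lemma card_S_one_Dg (m : ℕ) (ℓ : ℕ → Fin m) (P K : ℕ) :
    P ^ K ≤ (S (fun _ => 1) (Dg m ℓ P K)).card := by
  have h : (Finset.univ : Finset (Fin (P^K))).card ≤ (S (fun _ => 1) (Dg m ℓ P K)).card := by
    apply Finset.card_le_card_of_injOn (fun n : Fin (P^K) => ((n : ℕ) : ℤ))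
    · intro n _
      simp only [Finset.mem_coe]
      rw [mem_S]
      set x : Fin K → Fin P := finFunctionFinEquiv.symm n with hx
      refine ⟨fun i => ∑ t : Fin K, if ℓ t = i then (P:ℤ)^(t:ℕ) * ((x t : ℕ) : ℤ) else 0, ?_, ?_⟩
      · intro j
        unfold Dg
        exact Finset.mem_image_of_mem _ (Finset.mem_univ x)
      · simp only [one_mul]
        rw [Finset.sum_comm]
        have h1 : ∀ t : Fin K, (∑ i : Fin m, if ℓ t = i then (P:ℤ)^(t:ℕ) * ((x t : ℕ) : ℤ) else 0)
            = (P:ℤ)^(t:ℕ) * ((x t : ℕ) : ℤ) := by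
          intro t
          rw [Finset.sum_ite_eq]
          simp
        rw [Finset.sum_congr rfl fun t _ => h1 t]
        have h2 : (n : ℕ) = ∑ i : Fin K, (x i : ℕ) * P ^ (i : ℕ) := by
          rw [← finFunctionFinEquiv_apply, hx, Equiv.apply_symm_apply]
        rw [h2]
        push_cast
        refine Finset.sum_congr rfl fun t _ => ?_
        ring
    · intro a _ b _ hab
      simp only at hab
      have : (a : ℕ) = (b : ℕ) := by exact_mod_cast hab
      exact Fin.ext this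
  simpa using h

lemma card_E_le_pow (β : ℕ → ℤ) (P K : ℕ) : (E β P K).card ≤ P ^ K := by
  induction K with
  | zero => simp [E]
  | succ K ih =>
    unfold E
    refine (Finset.card_image₂_le _ _ _).trans ?_
    rw [pow_succ]
    apply Nat.mul_le_mul ih
    simp

lemma S_Dg_subset_E (m : ℕ) (ℓ : ℕ → Fin m) (P K : ℕ) (hP : 0 < P) (c : Fin m → ℤ)
    (φ : Equiv.Perm (Fin m)) :
    S c (fun j => Dg m ℓ P K (φ j)) ⊆ E (fun t => c (φ.symm (ℓ t))) P K := by
  intro z hz
  rw [mem_S] at hz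
  obtain ⟨a, ha, rfl⟩ := hz
  choose x hx hax using fun j => mem_Dg m ℓ P K (φ j) (a j) (ha j)
  have h1 : ∑ j, c j * a j = ∑ t ∈ Finset.range K, c (φ.symm (ℓ t)) * (P:ℤ)^t * x (φ.symm (ℓ t)) t := by
    calc ∑ j, c j * a j = ∑ j, ∑ t ∈ Finset.range K, (if ℓ t = φ j then c j * (P:ℤ)^t * x j t else 0) := by
          refine Finset.sum_congr rfl fun j _ => ?_
          rw [hax j, Finset.mul_sum]
          refine Finset.sum_congr rfl fun t _ => ?_
          rw [mul_ite, mul_zero, mul_assoc]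
      _ = ∑ t ∈ Finset.range K, ∑ j, (if ℓ t = φ j then c j * (P:ℤ)^t * x j t else 0) := Finset.sum_comm
      _ = _ := by
          refine Finset.sum_congr rfl fun t _ => ?_
          have : ∀ j, (if ℓ t = φ j then c j * (P:ℤ)^t * x j t else 0) =
              (if φ.symm (ℓ t) = j then c j * (P:ℤ)^t * x j t else 0) := by
            intro j
            congr 1
            rw [Equiv.symm_apply_eq]
          rw [Finset.sum_congr rfl fun j _ => this j, Finset.sum_ite_eq]
          simp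
  rw [h1]
  apply sum_mem_E
  intro t
  exact hx _ hP t

/-- general digit set -/
noncomputable def Eg (D : ℕ → Finset ℤ) (P : ℕ) : ℕ → Finset ℤ
  | 0 => {0}
  | (t+1) => Finset.image₂ (fun e x => e + (P:ℤ)^t * x) (Eg D P t) (D t)

lemma sum_mem_Eg (D : ℕ → Finset ℤ) (P : ℕ) (x : ℕ → ℤ) (hx : ∀ t, x t ∈ D t) (K : ℕ) :
    ∑ t ∈ Finset.range K, (P:ℤ)^t * x t ∈ Eg D P K := by
  induction K with
  | zero => simp [Eg]
  | succ K ih =>
    rw [Finset.sum_range_succ]
    unfold Eg
    rw [Finset.mem_image₂]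
    exact ⟨_, ih, x K, hx K, rfl⟩

lemma card_Eg_le (D : ℕ → Finset ℤ) (P K : ℕ) : (Eg D P K).card ≤ ∏ t ∈ Finset.range K, (D t).card := by
  induction K with
  | zero => simp [Eg]
  | succ K ih =>
    unfold Eg
    rw [Finset.prod_range_succ]
    exact (Finset.card_image₂_le _ _ _).trans (Nat.mul_le_mul ih le_rfl)

lemma S_Dg_subset_Eg (m : ℕ) (ℓ : ℕ → Fin m) (P K : ℕ) (hP : 0 < P) (c : Fin m → ℤ) (C : ℕ)
    (hC : ∑ j, |c j| ≤ C) (φ : Fin m → Fin m) :
    S c (fun j => Dg m ℓ P K (φ j)) ⊆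
      Eg (fun t => if ∃ j, ℓ t = φ j then Finset.Icc (-((C * P : ℕ) : ℤ)) ((C * P : ℕ) : ℤ) else {0}) P K := by
  intro z hz
  rw [mem_S] at hz
  obtain ⟨a, ha, rfl⟩ := hz
  choose x hx hax using fun j => mem_Dg m ℓ P K (φ j) (a j) (ha j)
  have h1 : ∑ j, c j * a j = ∑ t ∈ Finset.range K,
      (P:ℤ)^t * (∑ j, if ℓ t = φ j then c j * x j t else 0) := by
    calc ∑ j, c j * a j = ∑ j, ∑ t ∈ Finset.range K, (P:ℤ)^t * (if ℓ t = φ j then c j * x j t else 0) := by
          refine Finset.sum_congr rfl fun j _ => ?_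
          rw [hax j, Finset.mul_sum]
          refine Finset.sum_congr rfl fun t _ => ?_
          rw [mul_ite, mul_ite, mul_zero, mul_zero]
          congr 1
          ring
      _ = ∑ t ∈ Finset.range K, ∑ j, (P:ℤ)^t * (if ℓ t = φ j then c j * x j t else 0) := Finset.sum_comm
      _ = _ := by
          refine Finset.sum_congr rfl fun t _ => ?_
          rw [Finset.mul_sum]
  rw [h1]
  apply sum_mem_Eg
  intro t
  by_cases ht : ∃ j, ℓ t = φ j
  · rw [if_pos ht, Finset.mem_Icc, ← abs_le]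
    calc |∑ j, if ℓ t = φ j then c j * x j t else 0|
        ≤ ∑ j, |if ℓ t = φ j then c j * x j t else 0| := Finset.abs_sum_le_sum_abs _ _
      _ ≤ ∑ j, |c j| * P := by
          refine Finset.sum_le_sum fun j _ => ?_
          split_ifs
          · rw [abs_mul]
            have := hx j hP t
            rw [abs_of_nonneg this.1]
            exact mul_le_mul_of_nonneg_left this.2.le (abs_nonneg _)
          · rw [abs_zero]; positivity
      _ = (∑ j, |c j|) * P := by rw [Finset.sum_mul]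
      _ ≤ (C:ℤ) * P := mul_le_mul_of_nonneg_right hC (by positivity)
      _ = ((C * P : ℕ) : ℤ) := by push_cast; rfl
  · rw [if_neg ht, Finset.mem_singleton]
    apply Finset.sum_eq_zero
    intro j _
    rw [if_neg]
    intro h
    exact ht ⟨j, h⟩

lemma prod_periodic (b : ℕ → ℕ) (m : ℕ) (hper : ∀ t, b (t + m) = b t) (k : ℕ) :
    ∏ t ∈ Finset.range (m * k), b t = (∏ t ∈ Finset.range m, b t) ^ k := by
  have hper' : ∀ k t, b (m * k + t) = b t := by
    intro k
    induction k with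
    | zero => intro t; simp
    | succ k ih =>
      intro t
      have : m * (k+1) + t = (m * k + t) + m := by ring
      rw [this, hper, ih]
  induction k with
  | zero => simp
  | succ k ih =>
    rw [mul_add, mul_one, Finset.prod_range_add, ih, pow_succ]
    congr 1
    exact Finset.prod_congr rfl fun t _ => hper' k t

theorem gadget1 (m : ℕ) (hm : 0 < m) (c : (Fin m → Fin m) → Fin m → ℤ) (hc : ∀ φ j, c φ j ≠ 0)
    (ε : ℝ) (hε : 0 < ε) :
    ∃ D : Fin m → Finset ℤ, (∀ i, (D i).Nonempty) ∧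
      (∀ φ : Fin m → Fin m, Function.Bijective φ →
        ((S (c φ) (fun j => D (φ j))).card : ℝ) ≤ (S (fun _ => 1) D).card) ∧
      (∀ φ : Fin m → Fin m, ¬ (Function.Bijective φ ∧ ∀ i j, |c φ i| = |c φ j|) →
        ((S (c φ) (fun j => D (φ j))).card : ℝ) ≤ ε * (S (fun _ => 1) D).card) := by
  obtain ⟨B, hB⟩ : ∃ B : ℕ, ∀ φ, ∑ j, |c φ j| ≤ (B:ℤ) := by
    refine ⟨(∑ φ, ∑ j, |c φ j|).natAbs, fun φ => ?_⟩
    have h0 : (0:ℤ) ≤ ∑ φ, ∑ j, |c φ j| :=
      Finset.sum_nonneg fun _ _ => Finset.sum_nonneg fun _ _ => abs_nonneg _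
    rw [Int.natAbs_of_nonneg h0]
    exact Finset.single_le_sum (f := fun φ => ∑ j, |c φ j|)
      (fun i _ => Finset.sum_nonneg fun _ _ => abs_nonneg _) (Finset.mem_univ φ)
  have hB1 : ∀ φ j, |c φ j| ≤ (B:ℤ) := fun φ j =>
    (Finset.single_le_sum (f := fun j => |c φ j|) (fun i _ => abs_nonneg _)
      (Finset.mem_univ j)).trans (hB φ)
  set X : ℕ := 4 * B ^ 2 + 2 * (2 * B + 1) ^ (m - 1) + 1 with hX
  set P : ℕ := Nat.factorial B * X with hPdef
  have hfac : 1 ≤ Nat.factorial B := Nat.factorial_pos B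
  have hXP : X ≤ P := by rw [hPdef]; exact Nat.le_mul_of_pos_left _ hfac
  have hP1 : 1 ≤ P := by omega
  have hP2 : 4 * B ^ 2 ≤ P := by omega
  have hP3 : 2 * (2 * B + 1) ^ (m - 1) ≤ P := by omega
  have hdvd : ∀ φ j, |c φ j| ∣ (P:ℤ) := by
    intro φ j
    have h1 : (c φ j).natAbs ∣ Nat.factorial B := by
      apply Nat.dvd_factorial
      · exact Int.natAbs_pos.mpr (hc φ j)
      · have := hB1 φ j
        rw [Int.abs_eq_natAbs] at this
        exact_mod_cast this
    have h2 : (c φ j).natAbs ∣ P := h1.trans (Dvd.intro _ rfl)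
    rw [Int.abs_eq_natAbs]
    exact_mod_cast h2
  have hBpos : 1 ≤ B := by
    have : (0:ℤ) < B := lt_of_lt_of_le (abs_pos.mpr (hc (fun _ => ⟨0, hm⟩) ⟨0, hm⟩)) (hB1 _ _)
    exact_mod_cast this
  have hBR : (1:ℝ) ≤ B := by exact_mod_cast hBpos
  have hθ0 : (0:ℝ) ≤ 1 - 1 / (2 * (B:ℝ)) := by
    rw [sub_nonneg, div_le_one (by positivity)]; linarith
  have hθ1 : 1 - 1 / (2 * (B:ℝ)) < 1 := by
    have : (0:ℝ) < 1 / (2 * (B:ℝ)) := by positivity
    linarith
  obtain ⟨k1, hk1⟩ : ∃ k1, ∀ k ≥ k1, ((2 * B + 1) * B) * (1 - 1 / (2 * (B:ℝ))) ^ k < ε := by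
    have := (tendsto_pow_atTop_nhds_zero_of_lt_one hθ0 hθ1).const_mul ((2 * (B:ℝ) + 1) * B)
    rw [mul_zero] at this
    exact Filter.eventually_atTop.mp ((tendsto_order.1 this).2 ε hε)
  obtain ⟨k2, hk2⟩ : ∃ k2, ∀ k ≥ k2, ((1:ℝ)/2) ^ k < ε := by
    have := (tendsto_pow_atTop_nhds_zero_of_lt_one (by norm_num : (0:ℝ) ≤ 1/2) (by norm_num))
    exact Filter.eventually_atTop.mp ((tendsto_order.1 this).2 ε hε)
  set k := max k1 k2 with hk
  set ℓ : ℕ → Fin m := fun t => ⟨t % m, Nat.mod_lt _ hm⟩ with hℓ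
  have hℓper : ∀ t, ℓ (t + m) = ℓ t := by
    intro t; simp [hℓ]
  have hℓi : ∀ i : Fin m, ℓ (i : ℕ) = i := by
    intro i; ext; simp [hℓ, Nat.mod_eq_of_lt i.2]
  set D := Dg m ℓ P (m * k) with hD
  have hF : ((P:ℝ) ^ (m * k)) ≤ (S (fun _ => 1) D).card := by
    exact_mod_cast card_S_one_Dg m ℓ P (m * k)
  have hPpos : (0:ℝ) < (P:ℝ) ^ (m * k) := by
    have : (0:ℝ) < P := by exact_mod_cast hP1
    positivity
  refine ⟨D, fun i => Dg_nonempty m ℓ P (m * k) hP1 i, ?_, ?_⟩
  · intro φ hφ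
    have h1 := S_Dg_subset_E m ℓ P (m * k) hP1 (c φ) (Equiv.ofBijective φ hφ)
    have h2 := (Finset.card_le_card h1).trans (card_E_le_pow _ P (m * k))
    have h3 : ((S (c φ) (fun j => D (φ j))).card : ℝ) ≤ (P:ℝ) ^ (m * k) := by exact_mod_cast h2
    exact h3.trans hF
  · intro φ hφ
    by_cases hbij : Function.Bijective φ
    · have hnc : ¬ ∀ i j, |c φ i| = |c φ j| := fun h => hφ ⟨hbij, h⟩
      set e := Equiv.ofBijective φ hbij with he
      have h1 := S_Dg_subset_E m ℓ P (m * k) hP1 (c φ) e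
      have h2 := card_E_le (fun t => c φ (e.symm (ℓ t))) P B (fun t => hB1 _ _) (fun t => hc _ _)
        (fun t => hdvd _ _) hP2 hP1 m (fun t => by simp only [hℓper]) (by
          intro hcon
          apply hnc
          have : ∀ i, |c φ i| = |c φ (e.symm (ℓ 0))| := by
            intro i
            have := hcon (e i : ℕ) (e i).2
            rwa [hℓi, Equiv.symm_apply_apply] at this
          intro i j
          rw [this i, this j]) k
      have h3 : ((S (c φ) (fun j => D (φ j))).card : ℝ) ≤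
          (E (fun t => c φ (e.symm (ℓ t))) P (m * k)).card := by
        exact_mod_cast Finset.card_le_card h1
      calc ((S (c φ) (fun j => D (φ j))).card : ℝ)
          ≤ ((2 * B + 1) * B) * (1 - 1 / (2 * (B:ℝ))) ^ k * (P:ℝ) ^ (m * k) := h3.trans h2
        _ ≤ ε * (P:ℝ) ^ (m * k) := by
          apply mul_le_mul_of_nonneg_right _ hPpos.le
          exact (hk1 k (le_max_left _ _)).le
        _ ≤ ε * (S (fun _ => 1) D).card := mul_le_mul_of_nonneg_left hF hε.le
    · have hns : ¬ Function.Surjective φ := fun h => hbij (Finite.surjective_iff_bijective.mp h)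
      obtain ⟨i0, hi0⟩ : ∃ i0, ∀ j, φ j ≠ i0 := by
        unfold Function.Surjective at hns
        push Not at hns
        exact hns
      have h1 := S_Dg_subset_Eg m ℓ P (m * k) hP1 (c φ) B (hB φ) φ
      have h2 := (Finset.card_le_card h1).trans (card_Eg_le _ P (m * k))
      set b : ℕ → ℕ := fun t => (if ∃ j, ℓ t = φ j then
        Finset.Icc (-((B * P : ℕ) : ℤ)) ((B * P : ℕ) : ℤ) else ({0} : Finset ℤ)).card with hb
      have hbper : ∀ t, b (t + m) = b t := by
        intro t; simp only [hb, hℓper]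
      have hb1 : ∀ t, b t ≤ (2 * B + 1) * P := by
        intro t
        simp only [hb]
        split_ifs
        · rw [Int.card_Icc]
          have : (((B * P : ℕ) : ℤ) + 1 - (-((B * P : ℕ) : ℤ))).toNat = 2 * (B * P) + 1 := by omega
          rw [this]
          nlinarith
        · rw [Finset.card_singleton]
          nlinarith
      have hb0 : b i0 = 1 := by
        simp only [hb]
        rw [if_neg]
        · simp
        · rintro ⟨j, hj⟩
          rw [hℓi] at hj
          exact hi0 j hj.symm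
      have hprod : ∏ t ∈ Finset.range m, b t ≤ ((2 * B + 1) * P) ^ (m - 1) := by
        rw [← Finset.mul_prod_erase _ _ (Finset.mem_range.mpr i0.2), hb0, one_mul]
        calc ∏ t ∈ (Finset.range m).erase i0, b t
            ≤ ((2 * B + 1) * P) ^ ((Finset.range m).erase i0).card :=
              Finset.prod_le_pow_card _ _ _ fun t _ => hb1 t
          _ = _ := by rw [Finset.card_erase_of_mem (Finset.mem_range.mpr i0.2), Finset.card_range]
      rw [prod_periodic b m hbper k] at h2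
      have h3 : 2 * ((2 * B + 1) * P) ^ (m - 1) ≤ P ^ m := by
        calc 2 * ((2 * B + 1) * P) ^ (m - 1) = (2 * (2 * B + 1) ^ (m - 1)) * P ^ (m - 1) := by
              rw [mul_pow]; ring
          _ ≤ P * P ^ (m - 1) := Nat.mul_le_mul_right _ hP3
          _ = P ^ m := by
              rw [← pow_succ']
              congr 1
              omega
      have h4 : 2 ^ k * (S (c φ) (fun j => D (φ j))).card ≤ P ^ (m * k) := by
        calc 2 ^ k * (S (c φ) (fun j => D (φ j))).card
            ≤ 2 ^ k * (∏ t ∈ Finset.range m, b t) ^ k := Nat.mul_le_mul_left _ h2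
          _ ≤ 2 ^ k * (((2 * B + 1) * P) ^ (m - 1)) ^ k :=
              Nat.mul_le_mul_left _ (Nat.pow_le_pow_left hprod k)
          _ = (2 * ((2 * B + 1) * P) ^ (m - 1)) ^ k := (mul_pow _ _ _).symm
          _ ≤ (P ^ m) ^ k := Nat.pow_le_pow_left h3 k
          _ = P ^ (m * k) := by rw [pow_mul]
      have h5 : (2:ℝ) ^ k * (S (c φ) (fun j => D (φ j))).card ≤ (P:ℝ) ^ (m * k) := by
        exact_mod_cast h4
      have h6 : ((S (c φ) (fun j => D (φ j))).card : ℝ) ≤ (1/2)^k * (P:ℝ) ^ (m * k) := by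
        rw [one_div, inv_pow, inv_mul_eq_div, le_div_iff₀ (by positivity)]
        linarith
      calc ((S (c φ) (fun j => D (φ j))).card : ℝ) ≤ (1/2)^k * (P:ℝ) ^ (m * k) := h6
        _ ≤ ε * (P:ℝ) ^ (m * k) := by
          apply mul_le_mul_of_nonneg_right _ hPpos.le
          exact (hk2 k (le_max_right _ _)).le
        _ ≤ ε * (S (fun _ => 1) D).card := mul_le_mul_of_nonneg_left hF hε.le

end Pool.Agent.LinForms
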