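import Mathlib
import Pool.Agent.LinForms.Basic

set_option autoImplicit false

namespace Pool.Agent.LinForms

open Finset

/-- the sign detecting family attached to the pair `(a, b)` -/
def Zf {m : ℕ} (a b : Fin m) (i : Fin m) : Finset ℤ :=
  if i = a then {0, 1, 3} else if i = b then {0, -1, -3} else {0}

lemma Zf_nonempty {m : ℕ} (a b : Fin m) (i : Fin m) : (Zf a b i).Nonempty := by
  unfold Zf
  split_ifs <;> simp

lemma S_Zf {m : ℕ} (a b : Fin m) (hab : a ≠ b) (c : Fin m → ℤ) (φ : Equiv.Perm (Fin m)) (z : ℤ)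
    (hz : z ∈ S c (fun j => Zf a b (φ j))) :
    ∃ x ∈ ({0, 1, 3} : Finset ℤ), ∃ y ∈ ({0, 1, 3} : Finset ℤ),
      z = c (φ.symm a) * x - c (φ.symm b) * y := by
  rw [mem_S] at hz
  obtain ⟨d, hd, rfl⟩ := hz
  have ha := hd (φ.symm a)
  have hb := hd (φ.symm b)
  simp only [Equiv.apply_symm_apply, Zf, if_true] at ha hb
  rw [if_neg hab.symm] at hb
  refine ⟨_, ha, - d (φ.symm b), ?_, ?_⟩
  · simp only [Finset.mem_insert, Finset.mem_singleton] at hb ⊢
    omega
  · rw [Finset.sum_eq_add (φ.symm a) (φ.symm b)]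
    · ring
    · intro h; exact hab (φ.symm.injective h)
    · intro j _ hj
      have h1 : φ j ≠ a := by
        intro h; apply hj.1; rw [← h]; simp
      have h2 : φ j ≠ b := by
        intro h; apply hj.2; rw [← h]; simp
      have := hd j
      unfold Zf at this
      rw [if_neg h1, if_neg h2, Finset.mem_singleton] at this
      rw [this]; simp
    · intro h; exact absurd (Finset.mem_univ _) h
    · intro h; exact absurd (Finset.mem_univ _) h

lemma card_S_Zf_neg {m : ℕ} (a b : Fin m) (hab : a ≠ b) (c : Fin m → ℤ) (φ : Equiv.Perm (Fin m))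
    (h : c (φ.symm a) = - c (φ.symm b)) :
    (S c (fun j => Zf a b (φ j))).card ≤ 6 := by
  have hsub : S c (fun j => Zf a b (φ j)) ⊆
      ({0, 1, 2, 3, 4, 6} : Finset ℤ).image (fun t => c (φ.symm a) * t) := by
    intro z hz
    obtain ⟨x, hx, y, hy, rfl⟩ := S_Zf a b hab c φ z hz
    rw [Finset.mem_image]
    refine ⟨x + y, ?_, ?_⟩
    · simp only [Finset.mem_insert, Finset.mem_singleton] at hx hy ⊢
      omega
    · rw [h]; ring
  exact (Finset.card_le_card hsub).trans Finset.card_image_le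

lemma card_S_Zf_pos {m : ℕ} (a b : Fin m) (hab : a ≠ b) (c : Fin m → ℤ) (φ : Equiv.Perm (Fin m))
    (h : c (φ.symm a) = c (φ.symm b)) :
    (S c (fun j => Zf a b (φ j))).card ≤ 7 := by
  have hsub : S c (fun j => Zf a b (φ j)) ⊆
      ({-3, -2, -1, 0, 1, 2, 3} : Finset ℤ).image (fun t => c (φ.symm a) * t) := by
    intro z hz
    obtain ⟨x, hx, y, hy, rfl⟩ := S_Zf a b hab c φ z hz
    rw [Finset.mem_image]
    refine ⟨x - y, ?_, ?_⟩
    · simp only [Finset.mem_insert, Finset.mem_singleton] at hx hy ⊢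
      omega
    · rw [h]; ring
  exact (Finset.card_le_card hsub).trans Finset.card_image_le

lemma card_S_one_Zf {m : ℕ} (a b : Fin m) (hab : a ≠ b) :
    7 ≤ (S (fun _ => 1) (Zf a b)).card := by
  have hsub : ({-3, -2, -1, 0, 1, 2, 3} : Finset ℤ) ⊆ S (fun _ => 1) (Zf a b) := by
    have key : ∀ x ∈ ({0, 1, 3} : Finset ℤ), ∀ y ∈ ({0, 1, 3} : Finset ℤ),
        x - y ∈ S (fun _ => 1) (Zf a b) := by
      intro x hx y hy
      rw [mem_S]
      refine ⟨fun i => if i = a then x else if i = b then -y else 0, ?_, ?_⟩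
      · intro j
        show (if j = a then x else if j = b then -y else 0) ∈ Zf a b j
        unfold Zf
        by_cases h1 : j = a
        · rw [if_pos h1, if_pos h1]; exact hx
        · rw [if_neg h1, if_neg h1]
          by_cases h2 : j = b
          · rw [if_pos h2, if_pos h2]
            simp only [Finset.mem_insert, Finset.mem_singleton] at hy ⊢
            omega
          · rw [if_neg h2, if_neg h2]; simp
      · rw [Finset.sum_eq_add a b hab]
        · simp [hab.symm]; ring
        · intro j _ hj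
          simp [hj.1, hj.2]
        · intro h; exact absurd (Finset.mem_univ _) h
        · intro h; exact absurd (Finset.mem_univ _) h
    intro z hz
    simp only [Finset.mem_insert, Finset.mem_singleton] at hz
    rcases hz with rfl | rfl | rfl | rfl | rfl | rfl | rfl
    · simpa using key 0 (by simp) 3 (by simp)
    · simpa using key 1 (by simp) 3 (by simp)
    · simpa using key 0 (by simp) 1 (by simp)
    · simpa using key 0 (by simp) 0 (by simp)
    · simpa using key 1 (by simp) 0 (by simp)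
    · simpa using key 3 (by simp) 1 (by simp)
    · simpa using key 3 (by simp) 0 (by simp)
  have := Finset.card_le_card hsub
  simpa using this

/-- `ρ` is an achievable bound for the ratios -/
def Ach {m : ℕ} (c : (Fin m → Fin m) → Fin m → ℤ) (ρ : (Fin m → Fin m) → ℝ) : Prop :=
  ∃ D : Fin m → Finset ℤ, (∀ i, (D i).Nonempty) ∧
    ∀ φ : Fin m → Fin m, ((S (c φ) (fun j => D (φ j))).card : ℝ) ≤ ρ φ * (S (fun _ => 1) D).card

lemma S_nonempty {ι : Type} [Fintype ι] [DecidableEq ι] (c : ι → ℤ) (W : ι → Finset ℤ)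
    (h : ∀ i, (W i).Nonempty) : (S c W).Nonempty := by
  choose x hx using h
  exact ⟨_, (mem_S c W _).mpr ⟨x, hx, rfl⟩⟩

lemma ach_one {m : ℕ} (c : (Fin m → Fin m) → Fin m → ℤ) : Ach c (fun _ => 1) := by
  refine ⟨fun _ => {0}, fun _ => by simp, fun φ => ?_⟩
  have h1 : (S (c φ) (fun _ => {0})).card ≤ 1 := by
    apply Finset.card_le_one.mpr
    intro x hx y hy
    rw [mem_S] at hx hy
    obtain ⟨a, ha, rfl⟩ := hx
    obtain ⟨b, hb, rfl⟩ := hy
    refine Finset.sum_congr rfl fun j _ => ?_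
    have h1 := ha j
    have h2 := hb j
    simp only [Finset.mem_singleton] at h1 h2
    rw [h1, h2]
  have h2 : 1 ≤ (S (fun _ => 1) (fun _ : Fin m => ({0} : Finset ℤ))).card :=
    Finset.card_pos.mpr (S_nonempty _ _ fun _ => by simp)
  rw [one_mul]
  exact_mod_cast h1.trans h2

lemma ach_mul {m : ℕ} (c : (Fin m → Fin m) → Fin m → ℤ) (ρ ρ' : (Fin m → Fin m) → ℝ)
    (h : Ach c ρ) (h' : Ach c ρ') : Ach c (fun φ => ρ φ * ρ' φ) := by
  obtain ⟨D, hD, hDρ⟩ := h
  obtain ⟨D', hD', hDρ'⟩ := h'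
  obtain ⟨N, hN⟩ := exists_comb_card (S (fun _ => 1) D)
  refine ⟨fun i => comb N (D i) (D' i), ?_, ?_⟩
  · intro i
    obtain ⟨x, hx⟩ := hD i
    obtain ⟨y, hy⟩ := hD' i
    exact ⟨x + N * y, (mem_comb _ _ _ _).mpr ⟨x, hx, y, hy, rfl⟩⟩
  · intro φ
    rw [S_comb (fun _ => 1) N D D', hN]
    have h1 : (S (c φ) (fun j => comb N (D (φ j)) (D' (φ j)))).card ≤
        (S (c φ) (fun j => D (φ j))).card * (S (c φ) (fun j => D' (φ j))).card := by
      rw [S_comb (c φ) N (fun j => D (φ j)) (fun j => D' (φ j))]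
      exact card_comb_le _ _ _
    have h2 : ((S (c φ) (fun j => comb N (D (φ j)) (D' (φ j)))).card : ℝ) ≤
        (S (c φ) (fun j => D (φ j))).card * (S (c φ) (fun j => D' (φ j))).card := by
      exact_mod_cast h1
    refine h2.trans ?_
    push_cast
    calc ((S (c φ) (fun j => D (φ j))).card : ℝ) * (S (c φ) (fun j => D' (φ j))).card
        ≤ (ρ φ * (S (fun _ => 1) D).card) * (ρ' φ * (S (fun _ => 1) D').card) := by
          apply mul_le_mul (hDρ φ) (hDρ' φ) (by positivity)
          exact le_trans (by positivity) (hDρ φ)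
      _ = _ := by ring

lemma ach_pow {m : ℕ} (c : (Fin m → Fin m) → Fin m → ℤ) (ρ : (Fin m → Fin m) → ℝ)
    (h : Ach c ρ) (n : ℕ) : Ach c (fun φ => ρ φ ^ n) := by
  induction n with
  | zero => simpa using ach_one c
  | succ n ih =>
    have := ach_mul c _ _ ih h
    simpa [pow_succ] using this

lemma ach_prod {m : ℕ} (c : (Fin m → Fin m) → Fin m → ℤ) {κ : Type} [DecidableEq κ]
    (s : Finset κ) (ρ : κ → (Fin m → Fin m) → ℝ)
    (h : ∀ p ∈ s, Ach c (ρ p)) : Ach c (fun φ => ∏ p ∈ s, ρ p φ) := by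
  induction s using Finset.induction_on with
  | empty => simpa using ach_one c
  | insert p s hp ih =>
    have h1 := ach_mul c _ _ (h p (Finset.mem_insert_self _ _))
      (ih fun q hq => h q (Finset.mem_insert_of_mem hq))
    have h2 : (fun φ => ρ p φ * ∏ q ∈ s, ρ q φ) = (fun φ => ∏ q ∈ insert p s, ρ q φ) := by
      funext φ
      rw [Finset.prod_insert hp]
    rw [← h2]
    exact h1

theorem gadget2 {m : ℕ} (c : (Fin m → Fin m) → Fin m → ℤ)
    (hsign : ∀ φ : Fin m → Fin m, Function.Bijective φ → (∀ i j, |c φ i| = |c φ j|) →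
      ∃ i j, c φ i ≠ c φ j) :
    ∃ ρ : (Fin m → Fin m) → ℝ, Ach c ρ ∧ (∀ φ, 0 ≤ ρ φ) ∧
      ∀ φ : Fin m → Fin m, Function.Bijective φ → (∀ i j, |c φ i| = |c φ j|) → ρ φ ≤ 6 / 7 := by
  classical
  set s : Finset (Fin m × Fin m) := Finset.univ.filter (fun p => p.1 ≠ p.2) with hs
  set r : Fin m × Fin m → (Fin m → Fin m) → ℝ := fun p φ =>
    ((S (c φ) (fun j => Zf p.1 p.2 (φ j))).card : ℝ) / (S (fun _ => 1) (Zf p.1 p.2)).card with hr
  have hr0 : ∀ p φ, 0 ≤ r p φ := fun p φ => by simp only [hr]; positivity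
  refine ⟨fun φ => ∏ p ∈ s, r p φ, ach_prod c s r ?_, fun φ => Finset.prod_nonneg fun p _ => hr0 p φ, ?_⟩
  · intro p hp
    have hp' : p.1 ≠ p.2 := by simpa [hs] using hp
    refine ⟨Zf p.1 p.2, Zf_nonempty _ _, fun φ => ?_⟩
    have h7 := card_S_one_Zf p.1 p.2 hp'
    have h7R : (0:ℝ) < (S (fun _ => 1) (Zf p.1 p.2)).card := by
      have : 0 < (S (fun _ => 1) (Zf p.1 p.2)).card := by omega
      exact_mod_cast this
    simp only [hr]
    rw [div_mul_cancel₀ _ h7R.ne']
  · intro φ hφ habs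
    obtain ⟨i, j, hij⟩ := hsign φ hφ habs
    have hneg : c φ i = - c φ j := by
      rcases abs_eq_abs.mp (habs i j) with h | h
      · exact absurd h hij
      · exact h
    set e := Equiv.ofBijective φ hφ with he
    have hle1 : ∀ p ∈ s, r p φ ≤ 1 := by
      intro p hp
      have hp' : p.1 ≠ p.2 := by simpa [hs] using hp
      have h7 := card_S_one_Zf p.1 p.2 hp'
      have h7' : (S (c φ) (fun j => Zf p.1 p.2 (φ j))).card ≤ 7 := by
        rcases abs_eq_abs.mp (habs (e.symm p.1) (e.symm p.2)) with h | h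
        · exact card_S_Zf_pos p.1 p.2 hp' (c φ) e h
        · exact (card_S_Zf_neg p.1 p.2 hp' (c φ) e h).trans (by norm_num)
      simp only [hr]
      apply div_le_one_of_le₀ _ (by positivity)
      exact_mod_cast h7'.trans h7
    have hne : e i ≠ e j := by
      intro h
      apply hij
      rw [e.injective h]
    have hmem : (e i, e j) ∈ s := by simp only [hs, Finset.mem_filter, Finset.mem_univ, true_and]; exact hne
    have h67 : r (e i, e j) φ ≤ 6 / 7 := by
      have h7 := card_S_one_Zf (e i) (e j) hne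
      have h6 : (S (c φ) (fun k => Zf (e i) (e j) (φ k))).card ≤ 6 := by
        apply card_S_Zf_neg (e i) (e j) hne (c φ) e
        rw [Equiv.symm_apply_apply, Equiv.symm_apply_apply]
        exact hneg
      simp only [hr]
      have h7R : (7:ℝ) ≤ (S (fun _ => 1) (Zf (e i) (e j))).card := by exact_mod_cast h7
      have h6R : ((S (c φ) (fun k => Zf (e i) (e j) (φ k))).card : ℝ) ≤ 6 := by exact_mod_cast h6
      rw [div_le_iff₀ (by linarith)]
      linarith
    show ∏ p ∈ s, r p φ ≤ 6 / 7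
    rw [← Finset.mul_prod_erase _ _ hmem]
    calc r (e i, e j) φ * ∏ p ∈ s.erase (e i, e j), r p φ
        ≤ 6 / 7 * 1 := by
          apply mul_le_mul h67 _ (Finset.prod_nonneg fun p _ => hr0 p φ) (by norm_num)
          exact Finset.prod_le_one (fun p _ => hr0 p φ) fun p hp => hle1 p (Finset.mem_of_mem_erase hp)
      _ = 6 / 7 := by ring

end Pool.Agent.LinForms
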