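import Mathlib
import Pool.Agent.LinForms.Basic
import Pool.Agent.LinForms.Gadget1
import Pool.Agent.LinForms.Gadget2

set_option autoImplicit false

namespace Pool.Agent.LinForms

open Finset

/-- combination of the two gadgets -/
theorem exists_family {m : ℕ} (hm : 0 < m) (c : (Fin m → Fin m) → Fin m → ℤ)
    (hc : ∀ φ j, c φ j ≠ 0)
    (hsign : ∀ φ : Fin m → Fin m, Function.Bijective φ → (∀ i j, |c φ i| = |c φ j|) →
      ∃ i j, c φ i ≠ c φ j) (ε : ℝ) (hε : 0 < ε) :
    Ach c (fun _ => ε) := by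
  classical
  obtain ⟨ρ, hρ, hρ0, hρ67⟩ := gadget2 c hsign
  obtain ⟨h, hh⟩ : ∃ h : ℕ, ((6:ℝ)/7) ^ h < ε :=
    exists_pow_lt_of_lt_one hε (by norm_num)
  have hρh := ach_pow c ρ hρ h
  obtain ⟨C, hC⟩ : ∃ C : ℝ, ∀ φ, ρ φ ^ h ≤ C := by
    refine ⟨∑ φ, ρ φ ^ h, fun φ => ?_⟩
    exact Finset.single_le_sum (f := fun φ => ρ φ ^ h) (fun i _ => pow_nonneg (hρ0 i) h)
      (Finset.mem_univ φ)
  have hC0 : 0 ≤ C := le_trans (pow_nonneg (hρ0 id) h) (hC id)
  obtain ⟨D, hD, hD1, hD2⟩ := gadget1 m hm c hc (ε / (C + 1)) (by positivity)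
  have hA1 : Ach c (fun φ => if Function.Bijective φ ∧ ∀ i j, |c φ i| = |c φ j| then 1
      else ε / (C + 1)) := by
    refine ⟨D, hD, fun φ => ?_⟩
    beta_reduce
    split_ifs with hφ
    · rw [one_mul]; exact hD1 φ hφ.1
    · exact hD2 φ hφ
  obtain ⟨D', hD', hD'ρ⟩ := ach_mul c _ _ hρh hA1
  refine ⟨D', hD', fun φ => (hD'ρ φ).trans ?_⟩
  apply mul_le_mul_of_nonneg_right _ (by positivity)
  beta_reduce
  split_ifs with hφ
  · rw [mul_one]
    exact (pow_le_pow_left₀ (hρ0 φ) (hρ67 φ hφ.1 hφ.2) h).trans hh.le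
  · calc ρ φ ^ h * (ε / (C + 1)) ≤ (C + 1) * (ε / (C + 1)) := by
          apply mul_le_mul_of_nonneg_right _ (by positivity)
          linarith [hC φ]
      _ = ε := by field_simp

theorem main (m : ℕ) (hm : 0 < m) (u v : Fin m → ℤ)
    (hu : ∀ i, u i ≠ 0) (hv : ∀ i, v i ≠ 0)
    (hgu : Finset.univ.gcd u = 1) (hgv : Finset.univ.gcd v = 1)
    (hne : ¬ ∃ σ : Equiv.Perm (Fin m),
          (∀ i, v i = u (σ i)) ∨ (∀ i, v i = -u (σ i))) :
    ∃ A : Finset ℤ,
        ((Fintype.piFinset fun _ : Fin m => A).image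
            (fun a : Fin m → ℤ => ∑ i, v i * a i)).card <
        ((Fintype.piFinset fun _ : Fin m => A).image
            (fun a : Fin m → ℤ => ∑ i, u i * a i)).card := by
  classical
  set w : Fin m → ℤ := fun i => ∏ i' ∈ Finset.univ.erase i, u i' with hw
  set Pi : ℤ := ∏ i, u i with hPi
  have hPi0 : Pi ≠ 0 := Finset.prod_ne_zero_iff.mpr fun i _ => hu i
  have huw : ∀ i, u i * w i = Pi := fun i => Finset.mul_prod_erase _ _ (Finset.mem_univ i)
  have hw0 : ∀ i, w i ≠ 0 := fun i => Finset.prod_ne_zero_iff.mpr fun i' _ => hu i'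
  set c : (Fin m → Fin m) → Fin m → ℤ := fun φ j => v j * w (φ j) with hcdef
  have hc : ∀ φ j, c φ j ≠ 0 := fun φ j => mul_ne_zero (hv j) (hw0 _)
  have hsign : ∀ φ : Fin m → Fin m, Function.Bijective φ → (∀ i j, |c φ i| = |c φ j|) →
      ∃ i j, c φ i ≠ c φ j := by
    intro φ hφ _
    by_contra hcon
    push Not at hcon
    apply hne
    set lam := c φ ⟨0, hm⟩ with hlam
    have h1 : ∀ j, v j * w (φ j) = lam := fun j => hcon j _
    have h2 : ∀ j, Pi * v j = lam * u (φ j) := by
      intro j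
      rw [← h1 j, ← huw (φ j)]; ring
    have h3 : lam ∣ Pi := by
      have : lam ∣ Finset.univ.gcd (fun j => Pi * v j) := by
        apply Finset.dvd_gcd
        intro j _
        rw [h2 j]; exact dvd_mul_right _ _
      rw [Finset.gcd_mul_left, hgv, mul_one] at this
      exact (dvd_normalize_iff).mp this
    have h4 : Pi ∣ lam := by
      have : Pi ∣ Finset.univ.gcd (fun i => lam * u i) := by
        apply Finset.dvd_gcd
        intro i _
        obtain ⟨j, rfl⟩ := hφ.2 i
        rw [← h2 j]; exact dvd_mul_right _ _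
      rw [Finset.gcd_mul_left, hgu, mul_one] at this
      exact (dvd_normalize_iff).mp this
    have h5 : lam = Pi ∨ lam = -Pi := Int.natAbs_eq_natAbs_iff.mp (Int.natAbs_eq_of_dvd_dvd h3 h4)
    refine ⟨Equiv.ofBijective φ hφ, ?_⟩
    rcases h5 with h5 | h5
    · left
      intro i
      have := h2 i
      rw [h5] at this
      exact mul_left_cancel₀ hPi0 this
    · right
      intro i
      have := h2 i
      rw [h5] at this
      apply mul_left_cancel₀ hPi0
      rw [this]
      show -Pi * u (φ i) = Pi * -u (φ i)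
      ring
  set Nm : ℝ := (Fintype.card (Fin m → Fin m) : ℝ) with hNm
  have hNm0 : 0 ≤ Nm := by positivity
  obtain ⟨D, hD, hDρ⟩ := exists_family hm c hc hsign (1 / (Nm + 1)) (by positivity)
  have hF0 : (0:ℝ) < (S (fun _ => 1) D).card := by
    exact_mod_cast Finset.card_pos.mpr (S_nonempty _ _ hD)
  set A : Finset ℤ := Finset.univ.biUnion (fun i => (D i).image (fun d => w i * d)) with hA
  have hmemA : ∀ x, x ∈ A ↔ ∃ i, ∃ d ∈ D i, w i * d = x := by
    intro x; simp [hA]
  refine ⟨A, ?_⟩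
  -- upper bound
  have hup : ((Fintype.piFinset fun _ : Fin m => A).image
            (fun a : Fin m → ℤ => ∑ i, v i * a i)) ⊆
      (Finset.univ : Finset (Fin m → Fin m)).biUnion (fun φ => S (c φ) (fun j => D (φ j))) := by
    intro z hz
    rw [Finset.mem_image] at hz
    obtain ⟨a, ha, rfl⟩ := hz
    rw [Fintype.mem_piFinset] at ha
    choose φ d hd hda using fun j => (hmemA _).mp (ha j)
    rw [Finset.mem_biUnion]
    refine ⟨φ, Finset.mem_univ _, ?_⟩
    rw [mem_S]
    refine ⟨d, hd, ?_⟩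
    refine Finset.sum_congr rfl fun j _ => ?_
    rw [← hda j, hcdef]; ring
  -- lower bound
  have hlow : (S (fun _ => 1) D).card ≤ ((Fintype.piFinset fun _ : Fin m => A).image
            (fun a : Fin m → ℤ => ∑ i, u i * a i)).card := by
    apply Finset.card_le_card_of_injOn (fun z : ℤ => Pi * z)
    · intro z hz
      rw [Finset.mem_coe, mem_S] at hz
      obtain ⟨d, hd, rfl⟩ := hz
      rw [Finset.mem_coe, Finset.mem_image]
      refine ⟨fun i => w i * d i, ?_, ?_⟩
      · rw [Fintype.mem_piFinset]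
        intro i
        exact (hmemA _).mpr ⟨i, d i, hd i, rfl⟩
      · beta_reduce
        rw [Finset.mul_sum]
        refine Finset.sum_congr rfl fun j _ => ?_
        rw [← huw j]; ring
    · intro x _ y _ hxy
      exact mul_left_cancel₀ hPi0 hxy
  have hup2 : (((Fintype.piFinset fun _ : Fin m => A).image
            (fun a : Fin m → ℤ => ∑ i, v i * a i)).card : ℝ) < (S (fun _ => 1) D).card := by
    calc (((Fintype.piFinset fun _ : Fin m => A).image
            (fun a : Fin m → ℤ => ∑ i, v i * a i)).card : ℝ)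
        ≤ ((Finset.univ : Finset (Fin m → Fin m)).biUnion
            (fun φ => S (c φ) (fun j => D (φ j)))).card := by
          exact_mod_cast Finset.card_le_card hup
      _ ≤ ∑ φ : Fin m → Fin m, ((S (c φ) (fun j => D (φ j))).card : ℝ) := by
          exact_mod_cast Finset.card_biUnion_le
      _ ≤ ∑ φ : Fin m → Fin m, (1 / (Nm + 1)) * ((S (fun _ => 1) D).card : ℝ) :=
          Finset.sum_le_sum fun φ _ => hDρ φ
      _ = (Nm / (Nm + 1)) * (S (fun _ => 1) D).card := by
          rw [Finset.sum_const, Finset.card_univ, nsmul_eq_mul]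
          rw [← hNm]; ring
      _ < 1 * (S (fun _ => 1) D).card := by
          apply mul_lt_mul_of_pos_right _ hF0
          rw [div_lt_one (by positivity)]
          linarith
      _ = _ := one_mul _
  have : ((Fintype.piFinset fun _ : Fin m => A).image
            (fun a : Fin m → ℤ => ∑ i, v i * a i)).card < (S (fun _ => 1) D).card := by
    exact_mod_cast hup2
  exact this.trans_le hlow

end Pool.Agent.LinForms
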